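import Mathlib
import Pool.Agent.H15.Rfl3

set_option autoImplicit false

namespace Pool.Agent.Results.MP_06a8b9_al.NoSepQuot

/-- The evaluation map to the second Pontryagin dual is a topological isomorphism. -/
def IsReflexive (G : Type) [CommGroup G] [TopologicalSpace G] : Prop :=
  ∃ e : G ≃ₜ* PontryaginDual (PontryaginDual G), ∀ (x : G) (χ : PontryaginDual G), e x χ = χ x

theorem result : ∃ (G : Type) (_ : CommGroup G) (_ : TopologicalSpace G),
    IsTopologicalGroup G ∧ T2Space G ∧ Infinite G ∧ IsReflexive G ∧
      ∀ N : Subgroup G, IsClosed (N : Set G) → TopologicalSpace.SeparableSpace (G ⧸ N) → N = ⊤ := by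
  obtain ⟨H, -, h2, -, h4, h5, h6⟩ := Pool.Agent.H15.Psc.exists_S
  refine ⟨H, inferInstance, inferInstance, inferInstance, inferInstance,
    Set.infinite_coe_iff.2 fun h => h2 h.countable, h6, fun N hN ⟨D, d1, d2⟩ => ?_⟩
  by_cases hc : (N : Set H).Countable
  · exfalso
    let S : Set H := Quotient.out '' D ∪ N
    have hS : S.Countable := (d1.image _).union hc
    have hL : (Subgroup.closure S : Set H).Countable := by
      have := hS.to_subtype
      rw [FreeGroup.closure_eq_range]
      exact Set.countable_range _
    have hd : Dense (Subgroup.closure S : Set H) :=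
      (d2.preimage QuotientGroup.isOpenMap_coe).mono fun x hx => by
        obtain ⟨n, hn⟩ := QuotientGroup.mk_out_eq_mul N x
        rw [show x = Quotient.out (x : H ⧸ N) * (n : H)⁻¹ by rw [hn]; simp]
        exact mul_mem (Subgroup.subset_closure (Or.inl ⟨_, hx, rfl⟩))
          (inv_mem (Subgroup.subset_closure (Or.inr n.2)))
    rw [← (h4 _ hL).closure_eq, hd.closure_eq, Set.countable_univ_iff] at hL
    exact h2 (Set.countable_coe_iff.1 hL)
  · exact SetLike.coe_injective (hN.closure_eq.symm.trans (h5 N hc).closure_eq)

end Pool.Agent.Results.MP_06a8b9_al.NoSepQuot
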